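import Pool.Agent.ASE.Stmts7

/-!
# Squad ASE, row KRE (the arithmetic part, transport to linear algebra), helper46
-/

open scoped BigOperators

noncomputable section

namespace Pool.Agent.PP.SE.H46

open Pool.Agent.PP.SO Pool.Agent.PP.SD Pool.Agent.PP.SE

theorem sum_sub {T R : Type} [AddCommMonoid R] {S : Set T} [Fintype {a // a ∈ S}] (Q : T → Prop)
    (Q' : {a // a ∈ S} → Prop) [DecidablePred Q'] (f : T → R) (h : ∀ a, Q' a ↔ ¬ Q a.1) :
    ∑ᶠ a ∈ {a | a ∈ S ∧ Q a}, f a = ∑ a : {a // a ∈ S}, if Q' a then 0 else f a.1 := by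
  classical
  have h1 := finsum_set_coe_eq_finsum_mem (s := S) (f := fun a => if Q a then f a else 0)
  rw [finsum_eq_sum_of_fintype] at h1
  have h2 : ∑ᶠ a ∈ {a | a ∈ S ∧ Q a}, f a = ∑ᶠ a ∈ S, (if Q a then f a else 0) := by
    refine finsum_congr fun a => ?_
    by_cases ha : a ∈ S
    · by_cases hq : Q a
      · simp [ha, hq]
      · simp [ha, hq]
    · simp [ha]
  rw [h2, ← h1]
  refine Finset.sum_congr rfl fun a _ => ?_
  by_cases hq : Q a.1
  · rw [if_pos hq, if_neg (by rw [h]; exact not_not.2 hq)]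
  · rw [if_neg hq, if_pos ((h a).2 hq)]

/-- a sum over the units is a sum over `Icc 1 (ℓ - 1)` -/
theorem sum_units (ℓ : ℕ) [Fact ℓ.Prime] {R : Type} [AddCommMonoid R] (f : ℕ → R) :
    ∑ t : (ZMod ℓ)ˣ, f (t : ZMod ℓ).val = ∑ t ∈ Finset.Icc 1 (ℓ - 1), f t := by
  have hp : ℓ.Prime := Fact.out
  refine Finset.sum_bij' (i := fun t _ => (t : ZMod ℓ).val)
    (j := fun t ht => Units.mk0 ((t : ℕ) : ZMod ℓ) ?_) ?_ ?_ ?_ ?_ ?_
  · rw [Finset.mem_Icc] at ht
    intro h0
    rw [ZMod.natCast_eq_zero_iff] at h0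
    have := Nat.le_of_dvd (by omega) h0
    have := hp.one_lt
    omega
  · intro t _
    rw [Finset.mem_Icc]
    have h1 := ZMod.val_lt (t : ZMod ℓ)
    have h2 : (t : ZMod ℓ).val ≠ 0 := by
      rw [Ne, ZMod.val_eq_zero]
      exact t.ne_zero
    omega
  · intro t ht
    exact Finset.mem_univ _
  · intro t _
    ext
    simp
  · intro t ht
    rw [Finset.mem_Icc] at ht
    have := hp.one_lt
    simp only [Units.val_mk0]
    exact ZMod.val_cast_of_lt (by omega)
  · intro t _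
    rfl

section core

variable {ℓ : ℕ} {V₀ : Type} [CommGroup V₀] [Module (ZMod ℓ) (Additive V₀)]

/-- the automorphisms as linear maps -/
def lr (E₀ : Subgroup (MulAut V₀)) : E₀ →* Module.End (ZMod ℓ) (Additive V₀) where
  toFun σ := AddMonoidHom.toZModLinearMap ℓ
    (MonoidHom.toAdditive (MulEquiv.toMonoidHom (σ.1 : MulAut V₀)))
  map_one' := rfl
  map_mul' _ _ := rfl

/-- the projections as linear maps -/
def lp {E₀ : Subgroup (MulAut V₀)} {W : Subgroup V₀}
    (h : ∀ c d, pr ℓ E₀ W (c * d) = pr ℓ E₀ W c * pr ℓ E₀ W d) :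
    Module.End (ZMod ℓ) (Additive V₀) :=
  AddMonoidHom.toZModLinearMap ℓ (MonoidHom.toAdditive (MonoidHom.mk' (pr ℓ E₀ W) h))

theorem toMul_smul' [Fact ℓ.Prime] (j : ZMod ℓ) (v : Additive V₀) :
    Additive.toMul (j • v) = Additive.toMul v ^ j.val := by
  conv_lhs => rw [← ZMod.natCast_zmod_val j]
  rw [Nat.cast_smul_eq_nsmul, toMul_nsmul]

theorem core (hGCO : GcoStmt) (hKLP : KlpStmt) (hPRB : PrbStmt) (hMPB : MpbStmt) [Fact ℓ.Prime]
    (hl : ℓ ≠ 2) [Finite V₀] [Fintype (Additive V₀)] (E₀ : Subgroup (MulAut V₀)) [Fintype E₀]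
    [Fintype {a : Subgroup V₀ // a ∈ RL ℓ E₀}] (hFq : Fq ℓ V₀ E₀)
    (F : V₀ → ZMod ℓ) (N' : V₀ → V₀ → ZMod ℓ) (Z' : Subgroup V₀ → ZMod ℓ)
    (Y' : Subgroup V₀ → V₀ → V₀ → ZMod ℓ) (k' : ℤ)
    (hF1 : F 1 = 0) (hFp : ∀ (c : V₀) (j : ℕ), ¬ ℓ ∣ j → F (c ^ j) = F c)
    (hFe : ∀ σ ∈ E₀, ∀ c, F (σ c) = F c)
    (hZe : ∀ a ∈ RL ℓ E₀, ∀ σ ∈ E₀, Z' (mp σ a) = Z' a)
    (hFs : (∑ᶠ c : V₀, F c) = - ((Nat.card E₀ : ZMod ℓ) * k'))
    (hN1 : ∀ (ρ₁ ρ₂ : V₀ → ZMod ℓ), Hm ρ₁ → Hm ρ₂ → ∀ c d : V₀, c ≠ 1 → d ≠ 1 →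
      N' c d * (ρ₁ c * ρ₂ d) -
        (∑ᶠ a ∈ {a : Subgroup V₀ | a ∈ RL ℓ E₀ ∧ c ∉ a},
          Y' a (pr ℓ E₀ a c) d * (ρ₁ (pr ℓ E₀ a c) * ρ₂ d)) -
        (∑ᶠ b ∈ {b : Subgroup V₀ | b ∈ RL ℓ E₀ ∧ d ∉ b},
          Y' b (pr ℓ E₀ b d) c * (ρ₁ c * ρ₂ (pr ℓ E₀ b d))) =
      ∑ᶠ σ : E₀, (F (c * σ.1 d) * (ρ₁ (c * σ.1 d) * ρ₂ (σ.1⁻¹ c * d)) -
        ∑ᶠ a ∈ {a : Subgroup V₀ | a ∈ RL ℓ E₀ ∧ c * σ.1 d ∉ a},
          Z' a * (ρ₁ (pr ℓ E₀ a (c * σ.1 d)) * ρ₂ (σ.1⁻¹ (pr ℓ E₀ a (c * σ.1 d))))))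
    (hN2 : ∀ c d : V₀, c ≠ 1 → d ≠ 1 →
      ∑ t ∈ Finset.Icc 1 (ℓ - 1), ∑ s ∈ Finset.Icc 1 (ℓ - 1), N' (c ^ t) (d ^ s) =
        (Nat.card E₀ : ZMod ℓ) * (F c + F d) - (Nat.card E₀ : ZMod ℓ) ^ 2 * k')
    (hN3 : ∀ a ∈ RL ℓ E₀, ∀ κ ∈ a, ∀ d, d ≠ 1 →
      ∑ t ∈ Finset.Icc 1 (ℓ - 1), ∑ s ∈ Finset.Icc 1 (ℓ - 1), Y' a (κ ^ t) (d ^ s) =
        (Nat.card E₀ : ZMod ℓ) * Z' a) :
    (k' : ZMod ℓ) = 0 := by
  classical
  have hp : ℓ.Prime := Fact.out
  have hcard : Fintype.card E₀ = Nat.card E₀ := (Nat.card_eq_fintype_card).symm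
  let V := Additive V₀
  let I := {a : Subgroup V₀ // a ∈ RL ℓ E₀}
  let ρ : E₀ →* Module.End (ZMod ℓ) V := lr E₀
  let P : I → Module.End (ZMod ℓ) V := fun a => lp (hPRB ℓ V₀ E₀ hFq a.1).2.1.2.1
  let Z : I → ZMod ℓ := fun a => Z' a.1
  let FV : V → ZMod ℓ := fun v => F (Additive.toMul v)
  let NV : V → V → ZMod ℓ := fun v w => N' (Additive.toMul v) (Additive.toMul w)
  let YV : I → V → V → ZMod ℓ := fun a v w => Y' a.1 (Additive.toMul v) (Additive.toMul w)
  let FF : V → ZMod ℓ := fun v => if v = 0 then 0 else FV v + ∑ a, if P a v = v then Z a else 0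
  have hρ : ∀ (σ : E₀) (v : V₀), ρ σ (Additive.ofMul v) = Additive.ofMul (σ.1 v) :=
    fun _ _ => rfl
  have hP : ∀ (a : I) (v : V₀), P a (Additive.ofMul v) = Additive.ofMul (pr ℓ E₀ a.1 v) :=
    fun _ _ => rfl
  have hne : ∀ c : V, c ≠ 0 → Additive.toMul c ≠ 1 := fun c hc h0 => hc h0
  have hfix : ∀ (a : I) (v : V), P a v = v ↔ Additive.toMul v ∈ a.1 := by
    intro a v
    constructor
    · intro h
      have h1 := (hPRB ℓ V₀ E₀ hFq a.1).2.2.2.2.1 a.2 (Additive.toMul v)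
      have h2 : pr ℓ E₀ a.1 (Additive.toMul v) = Additive.toMul v := congrArg Additive.toMul h
      rw [h2] at h1
      exact h1
    · intro h
      exact congrArg Additive.ofMul ((hPRB ℓ V₀ E₀ hFq a.1).1 (Additive.toMul v) h)
  have hLP : LP ρ P Z := hKLP ℓ V₀ E₀ hFq ρ P Z' hρ hP hZe
  have hFFd : FFd P Z FV FF := by
    refine ⟨if_pos rfl, fun v hv => ?_⟩
    exact if_neg hv
  have hFF : ∀ v, v ≠ 0 → FF v = FV v + ∑ a, if P a v = v then Z a else 0 := fun v hv =>
    if_neg hv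
  have hLF : LF ρ FF (Fintype.card E₀ * (k' : ZMod ℓ) + ∑ a, Z a) := by
    refine ⟨hl, ?_, ?_, hFFd.1, ?_, ?_, ?_⟩
    · have h1 := Module.natCard_eq_pow_finrank (K := ZMod ℓ) (V := V)
      have h2 : Nat.card V = ℓ ^ 2 := hFq.cd
      rw [h2, Nat.card_zmod] at h1
      exact (Nat.pow_right_injective hp.two_le h1).symm
    · rw [hcard, Ne, ZMod.natCast_eq_zero_iff]
      exact hFq.cp
    · intro j v hj
      by_cases hv : v = 0
      · rw [hv, smul_zero]
      · have hjv : j • v ≠ 0 := smul_ne_zero hj hv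
        rw [hFF _ hjv, hFF _ hv]
        refine congrArg₂ (· + ·) ?_ (Finset.sum_congr rfl fun a _ => ?_)
        · change F (Additive.toMul (j • v)) = F (Additive.toMul v)
          rw [toMul_smul']
          apply hFp
          intro hd
          apply hj
          have h1 := ZMod.val_lt j
          rw [← ZMod.val_eq_zero]
          exact Nat.eq_zero_of_dvd_of_lt hd h1
        · have h1 : P a (j • v) = j • v ↔ P a v = v := by
            rw [map_smul]
            exact ⟨fun h => smul_right_injective _ hj h, fun h => by rw [h]⟩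
          simp only [h1]
    · intro e v
      have he : ∀ v : V, ρ e⁻¹ (ρ e v) = v := by
        intro v
        rw [← Module.End.mul_apply, ← map_mul, inv_mul_cancel, map_one]
        rfl
      by_cases hv : v = 0
      · rw [hv, map_zero]
      · have hev : ρ e v ≠ 0 := by
          intro h
          apply hv
          rw [← he v, h, map_zero]
        rw [hFF _ hev, hFF _ hv]
        refine congrArg₂ (· + ·) (hFe e.1 e.2 _) ?_
        have hmem : ∀ (σ : E₀) (a : I), mp σ.1 a.1 ∈ RL ℓ E₀ := by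
          intro σ a
          refine ⟨?_, ?_⟩
          · rw [(hMPB V₀ σ.1 σ.1 a.1 a.1).2.2.1]
            exact a.2.1
          · rw [((hPRB ℓ V₀ E₀ hFq a.1).2.2.2.1 σ.1 σ.2).1]
            exact a.2.2
        let ep : I ≃ I :=
          { toFun := fun a => ⟨mp e.1 a.1, hmem e a⟩
            invFun := fun a => ⟨mp (e⁻¹ : E₀).1 a.1, hmem e⁻¹ a⟩
            left_inv := fun a => by
              apply Subtype.ext
              change mp (e.1)⁻¹ (mp e.1 a.1) = a.1
              rw [← (hMPB V₀ (e.1)⁻¹ e.1 a.1 a.1).2.1, inv_mul_cancel]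
              exact (hMPB V₀ e.1 e.1 a.1 a.1).1
            right_inv := fun a => by
              apply Subtype.ext
              change mp e.1 (mp (e.1)⁻¹ a.1) = a.1
              rw [← (hMPB V₀ e.1 (e.1)⁻¹ a.1 a.1).2.1, mul_inv_cancel]
              exact (hMPB V₀ e.1 e.1 a.1 a.1).1 }
        refine (Fintype.sum_equiv ep _ _ fun a => ?_).symm
        have h1 : P (ep a) (ρ e v) = ρ e v ↔ P a v = v := by
          rw [hfix, hfix]
          exact (hMPB V₀ e.1 e.1 a.1 a.1).2.2.2.2.1 (Additive.toMul v)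
        have h2 : Z (ep a) = Z a := hZe a.1 a.2 e.1 e.2
        simp only [h1, h2]
    · have h1 : ∀ v : V, FF v = FV v + ∑ a, if P a v = v ∧ v ≠ 0 then Z a else 0 := by
        intro v
        by_cases hv : v = 0
        · have h2 : FF v = 0 := if_pos hv
          have h3 : FV v = 0 := by
            rw [hv]
            exact hF1
          rw [h2, h3, zero_add]
          symm
          refine Finset.sum_eq_zero fun a _ => if_neg fun h => h.2 hv
        · rw [hFF v hv]
          refine congrArg₂ (· + ·) rfl (Finset.sum_congr rfl fun a _ => ?_)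
          simp only [hv, ne_eq, not_false_eq_true, and_true]
      rw [Finset.sum_congr rfl fun v _ => h1 v, Finset.sum_add_distrib, Finset.sum_comm]
      have h2 : ∑ v : V, FV v = - ((Nat.card E₀ : ZMod ℓ) * k') := by
        rw [← hFs]
        let : Fintype V₀ := Fintype.ofFinite V₀
        rw [finsum_eq_sum_of_fintype]
        exact Fintype.sum_equiv Additive.toMul _ _ (fun _ => rfl)
      have h3 : ∀ a : I, ∑ v : V, (if P a v = v ∧ v ≠ 0 then Z a else 0) = - Z a := by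
        intro a
        have h4 : ∑ v : V, (if P a v = v then Z a else 0) = 0 := by
          rw [← Finset.sum_filter, Finset.sum_const, nsmul_eq_mul]
          have h5 : (Finset.univ.filter fun v : V => P a v = v).card = ℓ := by
            refine Eq.trans ?_ a.2.1
            rw [← Fintype.card_subtype, ← Nat.card_eq_fintype_card]
            exact Nat.card_congr
              { toFun := fun v => (⟨Additive.toMul v.1, (hfix a v.1).1 v.2⟩ : a.1)
                invFun := fun w => ⟨Additive.ofMul w.1, (hfix a _).2 w.2⟩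
                left_inv := fun _ => rfl
                right_inv := fun _ => rfl }
          rw [h5, ZMod.natCast_self, zero_mul]
        have h6 : ∀ v : V, (if P a v = v ∧ v ≠ 0 then Z a else 0) =
            (if P a v = v then Z a else 0) - (if v = 0 then Z a else 0) := by
          intro v
          by_cases hv : v = 0
          · rw [hv]
            simp
          · simp [hv]
        rw [Finset.sum_congr rfl fun v _ => h6 v, Finset.sum_sub_distrib, h4,
          Finset.sum_ite_eq' Finset.univ (0 : V), if_pos (Finset.mem_univ _), zero_sub]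
      rw [h2, Finset.sum_congr rfl fun a _ => h3 a, Finset.sum_neg_distrib, hcard]
      ring
  have hLX : LX ρ P Z FV NV YV (k' : ZMod ℓ) := by
    refine ⟨?_, ?_, ?_⟩
    · intro φ ψ c d hc hd
      have h1 := hN1 (fun v => φ (Additive.ofMul v)) (fun v => ψ (Additive.ofMul v))
        (fun v w => by
          change φ (Additive.ofMul (v * w)) = _
          rw [ofMul_mul, map_add]) (fun v w => by
          change ψ (Additive.ofMul (v * w)) = _
          rw [ofMul_mul, map_add])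
        (Additive.toMul c) (Additive.toMul d) (hne c hc) (hne d hd)
      have hq : ∀ (c : V) (a : I), P a c = c ↔ ¬ Additive.toMul c ∉ a.1 := fun c a => by
        rw [hfix, not_not]
      have e1 := @sum_sub _ _ _ _ _ (fun a => Additive.toMul c ∉ a) (fun a : I => P a c = c)
        (fun _ => Classical.propDecidable _) (fun a => Y' a (pr ℓ E₀ a (Additive.toMul c))
          (Additive.toMul d) * (φ (Additive.ofMul (pr ℓ E₀ a (Additive.toMul c))) * ψ d)) (hq c)
      have e2 := @sum_sub _ _ _ _ _ (fun a => Additive.toMul d ∉ a) (fun a : I => P a d = d)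
        (fun _ => Classical.propDecidable _) (fun a => Y' a (pr ℓ E₀ a (Additive.toMul d))
          (Additive.toMul c) * (φ c * ψ (Additive.ofMul (pr ℓ E₀ a (Additive.toMul d))))) (hq d)
      refine Eq.trans (congrArg₂ (· - ·) (congrArg₂ (· - ·) rfl e1.symm) e2.symm) (h1.trans ?_)
      refine (finsum_eq_sum_of_fintype _).trans ?_
      refine Finset.sum_congr rfl fun e _ => ?_
      refine congrArg₂ (· - ·) rfl ?_
      exact sum_sub _ (fun a : I => P a (c + ρ e d) = c + ρ e d) _ (hq (c + ρ e d))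
    · intro c d hc hd
      have h1 := hN2 _ _ (hne c hc) (hne d hd)
      rw [hcard]
      refine Eq.trans ?_ h1
      rw [← sum_units ℓ]
      refine Finset.sum_congr rfl fun t _ => ?_
      rw [← sum_units ℓ]
      refine Finset.sum_congr rfl fun s _ => ?_
      change N' (Additive.toMul ((t : ZMod ℓ) • c)) (Additive.toMul ((s : ZMod ℓ) • d)) = _
      rw [toMul_smul', toMul_smul']
    · intro a κ d hκ hd
      have h1 := hN3 a.1 a.2 (Additive.toMul κ) ((hfix a κ).1 hκ) _ (hne d hd)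
      rw [hcard]
      refine Eq.trans ?_ h1
      rw [← sum_units ℓ]
      refine Finset.sum_congr rfl fun t _ => ?_
      rw [← sum_units ℓ]
      refine Finset.sum_congr rfl fun s _ => ?_
      change Y' a.1 (Additive.toMul ((t : ZMod ℓ) • κ)) (Additive.toMul ((s : ZMod ℓ) • d)) = _
      rw [toMul_smul', toMul_smul']
  exact hGCO ℓ V E₀ I ρ P Z FV FF NV YV k' hLP hF1 hFFd hLF hLX

end core

theorem kre (hKE2 : Ke2Stmt) (hKLP : KlpStmt) (hGCO : GcoStmt) (hPRB : PrbStmt)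
    (hMPB : MpbStmt) : KreStmt := by
  intro ℓ _ hl V₀ _ _ E₀ hFq D N z y k hKZ
  obtain ⟨F, N', Z', Y', k', hk, hF1, hFp, hFe, hZe, hFs, hN1, hN2, hN3⟩ :=
    hKE2 ℓ hl V₀ E₀ hFq D N z y k hKZ
  have hex : ∀ x : Additive V₀, ℓ • x = 0 := fun x => by
    have := hFq.ex (Additive.toMul x)
    apply Additive.toMul.injective
    rw [toMul_nsmul, this]
    rfl
  have hfin : Finite (MulAut V₀) := by
    apply Finite.of_injective (fun σ : MulAut V₀ => (σ : V₀ → V₀))
    exact DFunLike.coe_injective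
  have h0 := @core ℓ V₀ _ (AddCommGroup.zmodModule hex) hGCO hKLP hPRB hMPB _ hl _
    (Fintype.ofFinite _) E₀ (Fintype.ofFinite _) (Fintype.ofFinite _) hFq F N' Z' Y' k' hF1 hFp
    hFe hZe hFs hN1 hN2 hN3
  rw [ZMod.intCast_zmod_eq_zero_iff_dvd] at h0
  obtain ⟨m, rfl⟩ := h0
  rw [hk]
  refine ⟨m, ?_⟩
  push_cast
  ring

end Pool.Agent.PP.SE.H46
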