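import Pool.Agent.ASE.Stmts2b

/-!
# Squad ASE, row RFL (transport of `Nn`), helper46
-/

open scoped BigOperators

set_option linter.unusedSectionVars false

noncomputable section

namespace Pool.Agent.PP.SE.H46

open Pool.Agent.Helper51_AWC Pool.Agent.Helper79_WRA Pool.Agent.PP Pool.Agent.PP.KF
open Pool.Agent.PP.K9 Pool.Agent.PP.K9.H97 Pool.Agent.PP.H75 Pool.Agent.PP.T3 Pool.Agent.PP.SO
open Pool.Agent.PP.SD

attribute [local instance] Ideal.Quotient.field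

section tools

variable {V₀ G : Type} [CommGroup V₀] [Group G] {ℓ : ℕ}
  {M : Ideal (integralClosure ℤ ℂ)} [M.IsMaximal] {B : Bk (FF M) V₀ G}

/-- conjugation of functions -/
def cc (t : G) (a : G → ℂ) : G → ℂ := fun g => a (t⁻¹ * g * t)

theorem cc_conj (t : G) (a : G → ℂ) (g : G) : cc t a (t * g * t⁻¹) = a g := by
  change a (t⁻¹ * (t * g * t⁻¹) * t) = a g
  congr 1
  group

theorem ch_conj {W : Subgroup V₀} {χ : G → ℂ} (hχ : χ ∈ Ch B W) {h : G} (hh : h ∈ B.C W) (y : G) :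
    χ (h * y * h⁻¹) = χ y := by
  by_cases hy : y ∈ B.C W
  · exact irr_conj hχ.2.1 (⟨y, hy⟩ : B.C W) ⟨h, hh⟩
  · have hy' : h * y * h⁻¹ ∉ B.C W := by
      intro h'
      apply hy
      have h2 := (B.C W).mul_mem ((B.C W).mul_mem ((B.C W).inv_mem hh) h') hh
      have e : h⁻¹ * (h * y * h⁻¹) * h = y := by group
      rwa [e] at h2
    rw [hχ.1 y hy, hχ.1 _ hy']

theorem reg_conj (t g : G) : Reg ℓ (t * g * t⁻¹) ↔ Reg ℓ g := by
  unfold Reg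
  have h1 : t * g * t⁻¹ = MulAut.conj t g := rfl
  rw [h1, MulEquiv.orderOf_eq]

/-- the values -/
theorem vx_conj {σ : MulAut V₀} {t : G} (hact : ∀ v, t * B.i v * t⁻¹ = B.i (σ v))
    (hbh : ∀ x, bh B ⊤ (t * x * t⁻¹) = bh B ⊤ x) (χ : G → ℂ) (x : V₀) :
    vx B (cc t χ) (σ x) = vx B χ x := by
  unfold vx
  congr 1
  rw [← finsum_comp_equiv (MulAut.conj t).toEquiv]
  refine finsum_congr fun s => ?_
  change bh B ⊤ (t * s * t⁻¹) * χ (t⁻¹ * (B.i (σ x) * (t * s * t⁻¹)) * t) = _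
  rw [hbh, ← hact x]
  congr 2
  group

/-- equality at the regular elements -/
theorem rq_conj {W W' : Subgroup V₀} {t : G} (hC : ∀ x, t * x * t⁻¹ ∈ B.C W' ↔ x ∈ B.C W)
    (χ ψ : G → ℂ) : rq ℓ B W' (cc t χ) (cc t ψ) ↔ rq ℓ B W χ ψ := by
  constructor
  · intro h g hg hr
    have h1 := h (t * g * t⁻¹) ((hC g).2 hg) ((reg_conj t g).2 hr)
    rwa [cc_conj, cc_conj] at h1
  · intro h g hg hr
    have e : t * (t⁻¹ * g * t) * t⁻¹ = g := by group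
    have h1 : t⁻¹ * g * t ∈ B.C W := by
      rw [← hC, e]
      exact hg
    have h2 : Reg ℓ (t⁻¹ * g * t) := by
      rw [← reg_conj t, e]
      exact hr
    exact h _ h1 h2

end tools

theorem rfl_row (hGEB : GebStmt) (hACB : AcbStmt) (hCJD : SD.CjdStmt) : RflStmt := by
  intro ℓ _ M _ hM hℓ2 V₀ G _ _ _ _ E₀ hFq B hB W hW σ hσ t ht hact
  have hcj := fun W => hCJD ℓ M hM hℓ2 V₀ G E₀ hFq B hB.toSb σ hσ t ht hact W
  have hacb := (hACB ℓ M hM hℓ2 V₀ G E₀ hFq B hB.toSb).2 W σ hσ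
  obtain ⟨-, hnS, -, -, -, -, hkW, -, -, -⟩ := hGEB ℓ V₀ E₀ σ hσ W
  have hC : ∀ x, t * x * t⁻¹ ∈ B.C (mp σ W) ↔ x ∈ B.C W := (hcj W).2.1
  have hac : ∀ χ ∈ Ch B W, ac B σ χ = cc t χ := by
    intro χ hχ
    funext x
    exact hacb.1 t ht hact χ hχ.1 (fun z hz g => ch_conj hχ hz g) x
  have hch : ∀ χ ∈ Ch B W, cc t χ ∈ Ch B (mp σ W) := by
    intro χ hχ
    rw [← hac χ hχ]
    exact (hacb.2.2.1 χ hχ).1
  have htop : (⊤ : Subgroup V₀).map σ.toMonoidHom = ⊤ :=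
    Subgroup.map_top_of_surjective _ σ.surjective
  have hbh : ∀ x, bh B ⊤ (t * x * t⁻¹) = bh B ⊤ x := by
    intro x
    have h1 := (hcj ⊤).2.2.2.1 x
    rwa [htop] at h1
  have hvx : ∀ (χ : G → ℂ) x, vx B (cc t χ) (σ x) = vx B χ x := vx_conj hact hbh
  have hmem : ∀ y ∈ kW E₀ (mp σ W), ∃ x ∈ kW E₀ W, σ x = y := by
    intro y hy
    have e : σ (σ⁻¹ y) = y := MulEquiv.apply_symm_apply _ _
    refine ⟨σ⁻¹ y, ?_, e⟩
    rw [← hkW, e]
    exact hy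
  refine ⟨fun χ hχ => ⟨hch χ hχ, hac χ hχ, hvx χ, fun ψ _ => rq_conj hC χ ψ, ?_⟩, ?_⟩
  · intro xc xc' hxc
    have h2 : (∀ y ∈ kW E₀ (mp σ W), ∀ y' ∈ kW E₀ (mp σ W), y ≠ 1 → y' ≠ 1 →
        vx B (cc t χ) y = vx B (cc t χ) y') ↔
        ∀ y ∈ kW E₀ W, ∀ y' ∈ kW E₀ W, y ≠ 1 → y' ≠ 1 → vx B χ y = vx B χ y' := by
      constructor
      · intro h y hy y' hy' h1 h1'
        rw [← hvx χ y, ← hvx χ y']
        exact h _ ((hkW y).2 hy) _ ((hkW y').2 hy')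
          (fun h0 => h1 (σ.injective (h0.trans (map_one σ).symm)))
          (fun h0 => h1' (σ.injective (h0.trans (map_one σ).symm)))
      · intro h y hy y' hy' h1 h1'
        obtain ⟨x, hx, rfl⟩ := hmem y hy
        obtain ⟨x', hx', rfl⟩ := hmem y' hy'
        rw [hvx, hvx]
        exact h x hx x' hx' (fun h0 => h1 (by rw [h0, map_one]))
          (fun h0 => h1' (by rw [h0, map_one]))
    have h3 : (nS E₀ (mp σ W) = ℓ - 1 → ¬ rq ℓ B (mp σ W) (cc t χ) xc') ↔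
        (nS E₀ W = ℓ - 1 → ¬ rq ℓ B W χ xc) := by
      rw [hnS]
      refine imp_congr_right fun h => not_congr ?_
      rw [hxc h]
      exact rq_conj hC χ xc
    exact ⟨fun h => ⟨hχ, h2.1 h.2.1, h3.1 h.2.2⟩, fun h => ⟨hch χ hχ, h2.2 h.2.1, h3.2 h.2.2⟩⟩
  · intro χ' hχ'
    obtain ⟨χ, hχ, h⟩ := hacb.2.2.2.1.surjOn hχ'
    exact ⟨χ, hχ, by rw [← h, hac χ hχ]; rfl⟩

end Pool.Agent.PP.SE.H46
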